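import Pool.Agent.H774Z.Tree.Main
import Pool.Agent.H774Z.Ditor.Levy

/-!
Shelah's partition relation from a strongly compact cardinal does not extend to non-special trees.
The definitions are in `Pool.Agent.H774Z.Tree.Defs` and `Pool.Agent.H774Z.Ditor.Defs`.
-/

set_option autoImplicit false

namespace Pool.Agent.Results.MP_12b8e0_lc.ANotArrow

open Cardinal Pool.Agent.H774Z.Tree Pool.Agent.H774Z.Ditor

/-- If `σ` is strongly compact and `ℵ₀ ≤ μ < σ`, then for some regular `κ ≥ σ` (namely `κ = σ`)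
some tree that is not `2^{<κ}`-special fails `T → (κ + μ)²_μ`. -/
theorem result (σ μ : Cardinal.{0}) (hσ : StronglyCompact σ) (h0 : ℵ₀ ≤ μ) (_h1 : μ < σ) :
    ∃ κ : Cardinal.{0}, κ.IsRegular ∧ σ ≤ κ ∧ ∃ (T : Type) (_ : PartialOrder T),
      IsTree T ∧ ¬ Special T (2 ^< κ) ∧ ¬ Arrow T (κ.ord + μ.ord) μ := by
  refine ⟨σ, hσ.2.1, le_rfl, main hσ.2.1 (powerlt_le.2 fun x hx => (hσ.strong hx).le) h0 ?_⟩
  refine add_le_add_right (le_trans ?_ (ord_le_ord.2 h0)) _
  rw [ord_aleph0]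
  exact (Ordinal.natCast_lt_omega0 2).le

end Pool.Agent.Results.MP_12b8e0_lc.ANotArrow
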